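import Pool.Agent.Helper13.S8.f4.Psd
import Pool.Agent.Helper85.KL.R10

set_option autoImplicit false
set_option maxRecDepth 100000

namespace S8.f4

theorem ckF : KR.ckF C = true := by decide +kernel

theorem ckD : KR.ckD C 11 10000 = true := by decide +kernel

theorem ckI : ∀ s < 6, KR.ckI C 50 10000 s = true := by decide +kernel

theorem ok : KR.Ok C 11 10000 50 10000 :=
  KR.ok_of_ck psd ckF ckD ckI (by norm_num) (by norm_num)

theorem pb : ∀ t < 12, ∀ c < 6, ∀ d < 6, C.pb t c d ≤ C.bc t := by decide +kernel

end S8.f4
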